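import Pool.Agent.R409.EV.AlgInd

/-!
# Euler products over the rational primes with normalised parameters
-/

set_option autoImplicit false

namespace Pool.Agent.R629.SP

open Filter Topology MeasureTheory Finset
open Pool.Agent.TH339.MP (PP FF bl ap tm summable_tm)

variable {m : ℕ}

/-- the coefficients of the logarithm of the Euler product with the parameters `β` -/
noncomputable def bQ (β : Nat.Primes → Fin m → ℂ) (x : PP) : ℂ :=
  (∑ j, β x.1 j ^ (x.2 + 1)) / (x.2 + 1 : ℕ)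

lemma norm_bQ {β : Nat.Primes → Fin m → ℂ} (hβ : ∀ p j, ‖β p j‖ ≤ 1) (x : PP) :
    ‖bQ β x‖ ≤ (m : ℝ) / (x.2 + 1 : ℕ) := by
  unfold bQ
  rw [norm_div, Complex.norm_natCast]
  refine div_le_div_of_nonneg_right ?_ (Nat.cast_nonneg _)
  calc ‖∑ j, β x.1 j ^ (x.2 + 1)‖ ≤ ∑ j : Fin m, (1 : ℝ) := by
        refine norm_sum_le_of_le _ fun j _ => ?_
        rw [norm_pow]
        exact pow_le_one₀ (norm_nonneg _) (hβ _ _)
    _ = m := by simp

lemma norm_cpow_lt {p : Nat.Primes} {s : ℂ} (hs : 1 < s.re) : ‖((p : ℕ) : ℂ) ^ (-s)‖ < 1 := by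
  have hp := p.2.two_le
  rw [Complex.norm_natCast_cpow_of_pos (by omega), Complex.neg_re]
  have h1 : (1 : ℝ) < ((p : ℕ) : ℝ) := by exact_mod_cast (by omega : 1 < (p : ℕ))
  exact Real.rpow_lt_one_of_one_lt_of_neg h1 (by linarith)

lemma norm_par_lt {β : Nat.Primes → Fin m → ℂ} (hβ : ∀ p j, ‖β p j‖ ≤ 1) {s : ℂ} (hs : 1 < s.re)
    (p : Nat.Primes) (j : Fin m) : ‖β p j * ((p : ℕ) : ℂ) ^ (-s)‖ < 1 := by
  rw [norm_mul]
  calc ‖β p j‖ * ‖((p : ℕ) : ℂ) ^ (-s)‖ ≤ 1 * ‖((p : ℕ) : ℂ) ^ (-s)‖ :=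
        mul_le_mul_of_nonneg_right (hβ p j) (norm_nonneg _)
    _ < 1 := by rw [one_mul]; exact norm_cpow_lt hs

lemma one_sub_ne {z : ℂ} (hz : ‖z‖ < 1) : 1 - z ≠ 0 := by
  intro h
  have : z = 1 := by linear_combination -h
  rw [this, norm_one] at hz
  exact lt_irrefl _ hz

/-- the Euler product -/
theorem hasProd_bQ {β : Nat.Primes → Fin m → ℂ} (hβ : ∀ p j, ‖β p j‖ ≤ 1) {s : ℂ}
    (hs : 1 < s.re) :
    HasProd (fun p : Nat.Primes => ∏ j, (1 - β p j * ((p : ℕ) : ℂ) ^ (-s))⁻¹)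
      (Complex.exp (FF (bQ β) s)) := by
  have h1 : HasSum (tm (bQ β) s) (FF (bQ β) s) := (summable_tm (norm_bQ hβ) hs).hasSum
  have h2 : ∀ p : Nat.Primes, HasSum (fun k : ℕ => tm (bQ β) s (p, k))
      (∑ j, -Complex.log (1 - β p j * ((p : ℕ) : ℂ) ^ (-s))) := by
    intro p
    have h3 : ∀ j : Fin m, HasSum (fun k : ℕ =>
        (β p j * ((p : ℕ) : ℂ) ^ (-s)) ^ (k + 1) / ((k + 1 : ℕ) : ℂ))
        (-Complex.log (1 - β p j * ((p : ℕ) : ℂ) ^ (-s))) := by
      intro j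
      have h4 := Complex.hasSum_taylorSeries_neg_log (norm_par_lt hβ hs p j)
      have h5 := (hasSum_nat_add_iff' 1).2 h4
      simpa using h5
    have h6 := hasSum_sum (s := univ) fun j _ => h3 j
    convert h6 using 1
    funext k
    unfold Pool.Agent.TH339.MP.tm bQ
    simp only
    rw [div_mul_eq_mul_div, Finset.sum_mul, Finset.sum_div]
    refine Finset.sum_congr rfl fun j _ => ?_
    rw [mul_pow]
  have h7 := h1.prod_fiberwise h2
  have h8 := h7.cexp
  convert h8 using 1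
  funext p
  simp only [Function.comp_apply]
  rw [Complex.exp_sum]
  refine Finset.prod_congr rfl fun j _ => ?_
  rw [Complex.exp_neg, Complex.exp_log (one_sub_ne (norm_par_lt hβ hs p j))]

/-- the characteristic polynomial in terms of the eigenvalues -/
theorem det_one_sub {M : Matrix (Fin m) (Fin m) ℂ} {α : Fin m → ℂ}
    (h : M.charpoly.roots = univ.val.map α) (t : ℂ) (ht : t ≠ 0) :
    (1 - t • M).det = ∏ j, (1 - t * α j) := by
  have h1 : (1 - t • M) = t • (Matrix.scalar (Fin m) t⁻¹ - M) := by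
    rw [smul_sub]
    congr 1
    ext i j
    by_cases hij : i = j
    · subst hij
      simp [ht]
    · simp [hij]
  have h2 : M.charpoly = ∏ j, (Polynomial.X - Polynomial.C (α j)) := by
    have h3 := (IsAlgClosed.splits M.charpoly).eq_prod_roots_of_monic M.charpoly_monic
    rw [h, Multiset.map_map] at h3
    exact h3
  rw [h1, Matrix.det_smul, Fintype.card_fin, ← Matrix.eval_charpoly, h2,
    Polynomial.eval_prod]
  have h4 : t ^ m = ∏ _j : Fin m, t := by simp
  rw [h4, ← Finset.prod_mul_distrib]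
  refine Finset.prod_congr rfl fun j _ => ?_
  rw [Polynomial.eval_sub, Polynomial.eval_X, Polynomial.eval_C, mul_sub, mul_inv_cancel₀ ht]

theorem exists_roots (M : Matrix (Fin m) (Fin m) ℂ) :
    ∃ α : Fin m → ℂ, M.charpoly.roots = univ.val.map α := by
  have h1 : M.charpoly.roots.card = m := by
    have := (IsAlgClosed.splits M.charpoly).natDegree_eq_card_roots
    rw [← this, Matrix.charpoly_natDegree_eq_dim, Fintype.card_fin]
  obtain ⟨l, hl⟩ : ∃ l : List ℂ, (l : Multiset ℂ) = M.charpoly.roots := Quot.exists_rep _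
  have h2 : l.length = m := by
    rw [← h1, ← hl]
    rfl
  subst h2
  refine ⟨l.get, ?_⟩
  rw [← hl, Fin.univ_val_map]
  simp

/-- the eigenvalues -/
noncomputable def eig (M : Matrix (Fin m) (Fin m) ℂ) : Fin m → ℂ := (exists_roots M).choose

theorem eig_spec (M : Matrix (Fin m) (Fin m) ℂ) : M.charpoly.roots = univ.val.map (eig M) :=
  (exists_roots M).choose_spec

theorem eig_mem (M : Matrix (Fin m) (Fin m) ℂ) (j : Fin m) : eig M j ∈ M.charpoly.roots := by
  rw [eig_spec]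
  exact Multiset.mem_map_of_mem _ (Finset.mem_univ_val j)

theorem trace_eig (M : Matrix (Fin m) (Fin m) ℂ) : M.trace = ∑ j, eig M j := by
  rw [Matrix.trace_eq_sum_roots_charpoly, eig_spec]
  rfl

open Classical in
/-- the normalised parameters -/
noncomputable def par (S : Finset ℕ) (M : Nat.Primes → Matrix (Fin m) (Fin m) ℂ) (w : ℝ)
    (p : Nat.Primes) (j : Fin m) : ℂ :=
  if (p : ℕ) ∈ S then 0 else eig (M p) j * ((p : ℕ) : ℂ) ^ (-(w : ℂ))

/-- the condition on the eigenvalues -/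
def Bd (S : Finset ℕ) (M : Nat.Primes → Matrix (Fin m) (Fin m) ℂ) (w : ℝ) : Prop :=
  ∀ p : Nat.Primes, (p : ℕ) ∉ S → ∀ α ∈ (M p).charpoly.roots, ‖α‖ ≤ ((p : ℕ) : ℝ) ^ w

theorem norm_par {S : Finset ℕ} {M : Nat.Primes → Matrix (Fin m) (Fin m) ℂ} {w : ℝ}
    (h : Bd S M w) (p : Nat.Primes) (j : Fin m) : ‖par S M w p j‖ ≤ 1 := by
  unfold par
  split_ifs with hp
  · rw [norm_zero]
    exact zero_le_one
  · have hq : (0 : ℝ) < ((p : ℕ) : ℝ) := by exact_mod_cast p.2.pos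
    rw [norm_mul, Complex.norm_natCast_cpow_of_pos p.2.pos]
    have h1 := h p hp _ (eig_mem (M p) j)
    have h2 : (-(w : ℂ)).re = -w := by simp
    rw [h2]
    calc ‖eig (M p) j‖ * ((p : ℕ) : ℝ) ^ (-w) ≤ ((p : ℕ) : ℝ) ^ w * ((p : ℕ) : ℝ) ^ (-w) :=
          mul_le_mul_of_nonneg_right h1 (by positivity)
      _ = 1 := by rw [← Real.rpow_add hq]; simp

open Classical in
/-- the partial Euler product -/
noncomputable def LM (S : Finset ℕ) (M : Nat.Primes → Matrix (Fin m) (Fin m) ℂ) (s : ℂ) : ℂ :=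
  ∏' p : Nat.Primes, if (p : ℕ) ∈ S then 1 else ((1 - (((p : ℕ) : ℂ) ^ (-s)) • M p).det)⁻¹

theorem LM_eq {S : Finset ℕ} {M : Nat.Primes → Matrix (Fin m) (Fin m) ℂ} {w : ℝ}
    (h : Bd S M w) {s : ℂ} (hs : 1 < s.re) :
    LM S M (s + w) = Complex.exp (FF (bQ (par S M w)) s) := by
  classical
  have h1 := hasProd_bQ (norm_par h) hs
  rw [← h1.tprod_eq]
  unfold LM
  congr 1
  funext p
  by_cases hp : (p : ℕ) ∈ S
  · rw [if_pos hp]
    symm
    refine Finset.prod_eq_one fun j _ => ?_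
    unfold par
    rw [if_pos hp]
    simp
  · have hq : ((p : ℕ) : ℂ) ≠ 0 := by exact_mod_cast p.2.ne_zero
    rw [if_neg hp, det_one_sub (eig_spec (M p)) _ (by
      rw [Ne, Complex.cpow_eq_zero_iff]
      exact fun h => hq h.1), ← Finset.prod_inv_distrib]
    refine Finset.prod_congr rfl fun j _ => ?_
    unfold par
    rw [if_neg hp]
    congr 2
    rw [neg_add, Complex.cpow_add _ _ hq]
    ring

end Pool.Agent.R629.SP
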