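import Pool.Agent.R629.SP.Lift
import Mathlib.SetTheory.Cardinal.Subfield

/-!
# The criterion
-/

set_option autoImplicit false

namespace Pool.Agent.R629.SP

open Filter Topology MeasureTheory Finset
open Pool.Agent.TH339.MP (PP FF bl ap tm summable_tm radial_x ae_notMem bl_angle boundary)
open Pool.Agent.TH345.ET (ep bv Cont vals ae_transcendental)
open Pool.Agent.W350.Edge (divSet)

section
variable {J : Type} {m : J → ℕ} {S : Finset ℕ}
  {M : ∀ j, Nat.Primes → Matrix (Fin (m j)) (Fin (m j)) ℂ} {w : ℝ}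

/-- the boundary value -/
noncomputable def bd {n : ℕ} (S : Finset ℕ) (A : Nat.Primes → Matrix (Fin n) (Fin n) ℂ) (w τ : ℝ) :
    ℂ := Complex.exp (bl (bQ (par S A w)) τ)

lemma bd_ne {n : ℕ} (S : Finset ℕ) (A : Nat.Primes → Matrix (Fin n) (Fin n) ℂ) (w τ : ℝ) :
    bd S A w τ ≠ 0 := Complex.exp_ne_zero _

theorem allInd [Countable J] (h : ∀ j, Bd S (M j) w)
    (hdet : ∀ j (p : Nat.Primes), (p : ℕ) ∉ S → (M j p).det ≠ 0)
    (hno : ∀ e : J →₀ ℤ, e ≠ 0 → {p : Nat.Primes | (p : ℕ) ∉ S ∧ ∃ z, vm M e p z ≠ 0}.Infinite)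
    (k : Subfield ℂ) (hk : (k : Set ℂ).Countable) :
    ∀ᵐ τ : ℝ, AlgebraicIndependent k (Sum.elim (fun j => bd S (M j) w τ) (powers τ)) := by
  have h1 := Pool.Agent.R409.EV.alg_ind (b := fun j => bQ (par S (M j) w))
    (M := fun j => (m j : ℝ)) (fun j => norm_bQ (norm_par (h j))) (fun e he => ?_)
    (D := fun _ => 1) (fun _ => one_ne_zero) k hk
  · filter_upwards [h1] with τ hτ
    rw [xs_eq] at hτ
    have h2 : Pool.Agent.R409.EV.bval (fun j => bQ (par S (M j) w)) (fun _ => 1) τ =
        fun j => bd S (M j) w τ := by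
      funext j
      unfold Pool.Agent.R409.EV.bval bd
      simp
    rwa [h2] at hτ
  · refine (hno e he).mono ?_
    rintro p ⟨hp, z, hz⟩
    by_contra hne
    apply hz
    refine (vm_iff (w := w) hp (fun j => hdet j p hp) e).1 (fun k => ?_) z
    by_contra h3
    exact hne ⟨k, h3⟩

lemma powers_mem {k : Subfield ℂ} {s : Set ℂ} {τ : ℝ} (hs : Set.range (powers τ) ⊆ s)
    (p : Nat.Primes) : ((p : ℕ) : ℂ) ^ (-(1 + (τ : ℂ) * Complex.I)) ∈
      IntermediateField.adjoin k s := by
  have hp : ((p : ℕ) : ℂ) ≠ 0 := by exact_mod_cast p.2.ne_zero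
  rw [neg_add, Complex.cpow_add _ _ hp]
  refine mul_mem ?_ ?_
  · rw [Complex.cpow_neg, Complex.cpow_one]
    exact inv_mem (natCast_mem _ _)
  · exact IntermediateField.subset_adjoin _ _ (hs ⟨some p, rfl⟩)

/-- the field generated by the parameters -/
noncomputable def parField [Countable J] (S : Finset ℕ)
    (M : ∀ j, Nat.Primes → Matrix (Fin (m j)) (Fin (m j)) ℂ) (w : ℝ) : Subfield ℂ :=
  Subfield.closure (Set.range fun x : (Σ j : J, Nat.Primes × Fin (m j)) =>
    par S (M x.1) w x.2.1 x.2.2)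

lemma parField_countable [Countable J] : (parField S M w : Set ℂ).Countable := by
  have h1 := Subfield.cardinalMk_closure_le_max
    (Set.range fun x : (Σ j : J, Nat.Primes × Fin (m j)) => par S (M x.1) w x.2.1 x.2.2)
  have h2 : Cardinal.mk (Set.range fun x : (Σ j : J, Nat.Primes × Fin (m j)) =>
      par S (M x.1) w x.2.1 x.2.2) ≤ Cardinal.aleph0 := by
    rw [Cardinal.mk_le_aleph0_iff]
    exact (Set.countable_range _).to_subtype
  rw [max_eq_right h2] at h1
  exact Cardinal.mk_le_aleph0_iff.1 h1 |>.to_set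

theorem rel_mem [Countable J] (h : ∀ j, Bd S (M j) w)
    (hdet : ∀ j (p : Nat.Primes), (p : ℕ) ∉ S → (M j p).det ≠ 0) (e : J →₀ ℤ)
    (he : {p : Nat.Primes | (p : ℕ) ∉ S ∧ ∃ z, vm M e p z ≠ 0}.Finite) {τ : ℝ}
    (hτ : ∀ j ∈ e.support, τ ∉ divSet (ap (bQ (par S (M j) w)))) {s : Set ℂ}
    (hs : Set.range (powers τ) ⊆ s) :
    (e.prod fun j n => bd S (M j) w τ ^ n) ∈ IntermediateField.adjoin (parField S M w) s := by
  classical
  have h1 := rel_bl (β := fun j => par S (M j) w) (fun j => norm_par (h j)) e he.toFinset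
    (fun p hp k => by
      rw [Set.Finite.mem_toFinset, Set.mem_ofPred_eq, not_and] at hp
      by_cases hpS : (p : ℕ) ∈ S
      · refine Finset.sum_eq_zero fun j _ => ?_
        unfold bQ par
        simp [hpS]
      · have h2 := hp hpS
        push Not at h2
        exact (vm_iff hpS (fun j => hdet j p hpS) e).2 h2 k) hτ
  unfold bd
  rw [h1]
  refine prod_mem fun p _ => ?_
  refine prod_mem fun j _ => ?_
  refine zpow_mem ?_ _
  unfold fac
  refine prod_mem fun i _ => inv_mem (sub_mem (one_mem _) (mul_mem ?_ (powers_mem hs p)))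
  have h3 : par S (M j) w p i ∈ parField S M w :=
    Subfield.subset_closure ⟨⟨j, p, i⟩, rfl⟩
  exact (IntermediateField.adjoin (parField S M w) s).algebraMap_mem
    (⟨par S (M j) w p i, h3⟩ : parField S M w)

end

/-! ### One family against the others -/

section
variable {J : Type} {n : ℕ} {m : J → ℕ} {S : Finset ℕ} {w : ℝ}

/-- the dimensions -/
def mo (n : ℕ) (m : J → ℕ) : Option J → ℕ := fun o => o.elim n m

/-- the joint family -/
def Mo (A : Nat.Primes → Matrix (Fin n) (Fin n) ℂ)
    (B : ∀ j, Nat.Primes → Matrix (Fin (m j)) (Fin (m j)) ℂ) :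
    ∀ o : Option J, Nat.Primes → Matrix (Fin (mo n m o)) (Fin (mo n m o)) ℂ
  | none => A
  | some j => B j

variable {A : Nat.Primes → Matrix (Fin n) (Fin n) ℂ}
  {B : ∀ j, Nat.Primes → Matrix (Fin (m j)) (Fin (m j)) ℂ}

lemma vm_option (e : Option J →₀ ℤ) (p : Nat.Primes) (z : ℂ) :
    vm (Mo A B) e p z = e none * ((A p).charpoly.rootMultiplicity z : ℤ) + vm B e.some p z := by
  unfold vm
  rw [Finsupp.sum_option_index]
  · rfl
  · intro o
    exact zero_mul _
  · intro o a b
    exact add_mul _ _ _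

/-- There are an integer `d > 0` and integers `e_j`, almost all zero, such that for all but finitely
many primes `p ∉ S` the divisor of the eigenvalues of `A_p` (the sum of its eigenvalues, with
multiplicities, in the free abelian group on `ℂ`), multiplied by `d`, is the combination with the
coefficients `e_j` of the divisors of the eigenvalues of the `B_{j,p}`. -/
def VirtualRelation (S : Finset ℕ) (A : Nat.Primes → Matrix (Fin n) (Fin n) ℂ)
    (B : ∀ j, Nat.Primes → Matrix (Fin (m j)) (Fin (m j)) ℂ) : Prop :=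
  ∃ d : ℕ, 0 < d ∧ ∃ e : J →₀ ℤ, {p : Nat.Primes | (p : ℕ) ∉ S ∧
    ∃ z, (d : ℤ) * ((A p).charpoly.rootMultiplicity z : ℤ) ≠
      e.sum fun j k => k * ((B j p).charpoly.rootMultiplicity z : ℤ)}.Finite

/-- No relation between the `B_j`: for all integers `e_j`, almost all zero but not all zero, there are
infinitely many primes `p ∉ S` for which the combination with the coefficients `e_j` of the divisors of
the eigenvalues of the `B_{j,p}` is not zero. -/
def Unrelated (S : Finset ℕ)
    (B : ∀ j, Nat.Primes → Matrix (Fin (m j)) (Fin (m j)) ℂ) : Prop :=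
  ∀ e : J →₀ ℤ, e ≠ 0 → {p : Nat.Primes | (p : ℕ) ∉ S ∧
    ∃ z, (e.sum fun j k => k * ((B j p).charpoly.rootMultiplicity z : ℤ)) ≠ 0}.Infinite

lemma hno_of (hB : Unrelated S B) (hR : ¬ VirtualRelation S A B) (e : Option J →₀ ℤ)
    (he : e ≠ 0) : {p : Nat.Primes | (p : ℕ) ∉ S ∧ ∃ z, vm (Mo A B) e p z ≠ 0}.Infinite := by
  intro hfin
  rcases lt_trichotomy (e none) 0 with h0 | h0 | h0
  · refine hR ⟨(-(e none)).toNat, by omega, e.some, hfin.subset ?_⟩
    rintro p ⟨hp, z, hz⟩
    refine ⟨hp, z, fun h => hz ?_⟩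
    rw [vm_option] at h
    rw [Int.toNat_of_nonneg (by omega)]
    unfold vm at h
    linear_combination -h
  · have h1 : e.some ≠ 0 := by
      intro h2
      apply he
      ext o
      rcases o with _ | j
      · exact h0
      · exact DFunLike.congr_fun h2 j
    refine hB e.some h1 (hfin.subset ?_)
    rintro p ⟨hp, z, hz⟩
    refine ⟨hp, z, ?_⟩
    rw [vm_option, h0, zero_mul, zero_add]
    exact hz
  · refine hR ⟨(e none).toNat, by omega, -e.some, hfin.subset ?_⟩
    rintro p ⟨hp, z, hz⟩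
    refine ⟨hp, z, fun h => hz ?_⟩
    rw [vm_option] at h
    rw [Int.toNat_of_nonneg (by omega)]
    have h2 : ((-e.some).sum fun j k => k * ((B j p).charpoly.rootMultiplicity z : ℤ)) =
        -vm B e.some p z := by
      unfold vm
      rw [Finsupp.sum_neg_index]
      · unfold Finsupp.sum
        rw [← Finset.sum_neg_distrib]
        exact Finset.sum_congr rfl fun j _ => neg_mul _ _
      · intro j
        exact zero_mul _
    rw [h2]
    linear_combination h

/-- The set of the numbers `l_j`, `j ∈ J`, the number `τ` and the numbers `p^{-iτ}`, `p` prime. -/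
def valSet {J : Type} (l : J → ℂ) (τ : ℝ) : Set ℂ := Set.range (Sum.elim l (powers τ))

theorem crit_transc [Countable J] (hA : Bd S A w) (hBd : ∀ j, Bd S (B j) w)
    (hdA : ∀ p : Nat.Primes, (p : ℕ) ∉ S → (A p).det ≠ 0)
    (hdB : ∀ j (p : Nat.Primes), (p : ℕ) ∉ S → (B j p).det ≠ 0)
    (hB : Unrelated S B) (hR : ¬ VirtualRelation S A B) (k : Subfield ℂ)
    (hk : (k : Set ℂ).Countable) :
    ∀ᵐ τ : ℝ, Transcendental (IntermediateField.adjoin k (valSet (fun j => bd S (B j) w τ) τ))
      (bd S A w τ) := by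
  have h1 := allInd (M := Mo A B) (S := S) (w := w)
    (fun o => match o with
      | none => hA
      | some j => hBd j)
    (fun o => match o with
      | none => hdA
      | some j => hdB j)
    (hno_of hB hR) k hk
  filter_upwards [h1] with τ hτ
  have h2 := hτ.transcendental_adjoin (s := {Sum.inl none}ᶜ) (i := Sum.inl none) (by simp)
  have h3 : (Sum.elim (fun j => bd S (Mo A B j) w τ) (powers τ)) '' {Sum.inl none}ᶜ =
      valSet (fun j => bd S (B j) w τ) τ := by
    ext z
    constructor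
    · rintro ⟨(_ | j) | o, hx, rfl⟩
      · exact absurd rfl hx
      · exact ⟨Sum.inl j, rfl⟩
      · exact ⟨Sum.inr o, rfl⟩
    · rintro ⟨j | o, rfl⟩
      · exact ⟨Sum.inl (some j), by simp, rfl⟩
      · exact ⟨Sum.inr o, by simp, rfl⟩
  rw [h3] at h2
  rw [IntermediateField.transcendental_adjoin_iff]
  exact h2

theorem crit_alg [Countable J] (hA : Bd S A w) (hBd : ∀ j, Bd S (B j) w)
    (hdA : ∀ p : Nat.Primes, (p : ℕ) ∉ S → (A p).det ≠ 0)
    (hdB : ∀ j (p : Nat.Primes), (p : ℕ) ∉ S → (B j p).det ≠ 0)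
    (hR : VirtualRelation S A B) :
    ∃ k : Subfield ℂ, (k : Set ℂ).Countable ∧
      ∀ τ : ℝ, τ ∉ divSet (ap (bQ (par S A w))) → (∀ j, τ ∉ divSet (ap (bQ (par S (B j) w)))) →
        IsAlgebraic (IntermediateField.adjoin k (valSet (fun j => bd S (B j) w τ) τ))
          (bd S A w τ) := by
  obtain ⟨d, hd, e, hfin⟩ := hR
  refine ⟨parField S (Mo A B) w, parField_countable, fun τ hτ1 hτ2 => ?_⟩
  set s := valSet (fun j => bd S (B j) w τ) τ with hs
  have h1 := rel_mem (M := Mo A B) (S := S) (w := w)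
    (fun o => match o with
      | none => hA
      | some j => hBd j)
    (fun o => match o with
      | none => hdA
      | some j => hdB j)
    ((-e).optionElim (d : ℤ)) (hfin.subset (by
      rintro p ⟨hp, z, hz⟩
      refine ⟨hp, z, fun h => hz ?_⟩
      rw [vm_option]
      rw [Finsupp.some_optionElim, Finsupp.optionElim_apply_none, h]
      unfold vm
      rw [Finsupp.sum_neg_index]
      · unfold Finsupp.sum
        rw [← Finset.sum_add_distrib]
        refine Finset.sum_eq_zero fun j _ => ?_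
        ring
      · intro j
        exact zero_mul _))
    (τ := τ) (fun o _ => match o with
      | none => hτ1
      | some j => hτ2 j) (s := s) (by
      rintro _ ⟨o, rfl⟩
      exact ⟨Sum.inr o, rfl⟩)
  rw [Finsupp.prod_option_index (b := fun o n => bd S (Mo A B o) w τ ^ n)
    (h_zero := fun o => zpow_zero _) (h_add := fun o a b => zpow_add₀ (bd_ne _ _ _ _) _ _),
    Finsupp.some_optionElim, Finsupp.optionElim_apply_none, zpow_natCast] at h1
  have h2 : ((-e).prod fun j n => bd S (Mo A B (some j)) w τ ^ n) ∈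
      IntermediateField.adjoin (parField S (Mo A B) w) s := by
    refine prod_mem fun j _ => zpow_mem ?_ _
    exact IntermediateField.subset_adjoin _ _ ⟨Sum.inl j, rfl⟩
  have h3 : ((-e).prod fun j n => bd S (Mo A B (some j)) w τ ^ n) ≠ 0 :=
    Finset.prod_ne_zero_iff.2 fun j _ => zpow_ne_zero _ (bd_ne _ _ _ _)
  have h4 : bd S A w τ ^ d ∈ IntermediateField.adjoin (parField S (Mo A B) w) s := by
    have h5 := div_mem h1 h2
    rwa [mul_div_cancel_right₀ _ h3] at h5
  exact IsAlgebraic.of_pow hd (isAlgebraic_algebraMap (⟨_, h4⟩ :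
    IntermediateField.adjoin (parField S (Mo A B) w) s))

end

/-! ### One family against one family of the same dimension -/

section
variable {n : ℕ} {S : Finset ℕ} {A B : Nat.Primes → Matrix (Fin n) (Fin n) ℂ}

lemma sum_mult {n : ℕ} (X : Matrix (Fin n) (Fin n) ℂ) (Z : Finset ℂ)
    (hZ : ∀ z, z ∈ X.charpoly.roots → z ∈ Z) :
    ∑ z ∈ Z, (X.charpoly.rootMultiplicity z : ℤ) = n := by
  have h1 := sum_eig X Z hZ (fun _ => 1)
  simp only [Finset.sum_const, Finset.card_univ, Fintype.card_fin, nsmul_eq_mul, mul_one] at h1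
  have h2 : (((∑ z ∈ Z, (X.charpoly.rootMultiplicity z : ℤ)) : ℤ) : ℂ) = ((n : ℤ) : ℂ) := by
    push_cast
    exact h1.symm
  exact_mod_cast h2

lemma charpoly_eq_of {X Y : Matrix (Fin n) (Fin n) ℂ}
    (h : ∀ z, X.charpoly.rootMultiplicity z = Y.charpoly.rootMultiplicity z) :
    X.charpoly = Y.charpoly := by
  classical
  have h1 : X.charpoly.roots = Y.charpoly.roots := by
    ext z
    rw [Polynomial.count_roots, Polynomial.count_roots, h z]
  rw [(IsAlgClosed.splits X.charpoly).eq_prod_roots_of_monic X.charpoly_monic,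
    (IsAlgClosed.splits Y.charpoly).eq_prod_roots_of_monic Y.charpoly_monic, h1]

lemma unrelated_unit (hn : 0 < n) : Unrelated S (fun _ : Unit => B) := by
  classical
  intro e he hfin
  have h0 : e () ≠ 0 := by
    intro h
    apply he
    ext u
    exact h
  have h1 : {p : Nat.Primes | (p : ℕ) ∉ S}.Infinite := by
    have h2 : ({p : Nat.Primes | (p : ℕ) ∈ S}).Finite :=
      Set.Finite.preimage (f := fun p : Nat.Primes => (p : ℕ)) Subtype.val_injective.injOn
        S.finite_toSet
    exact h2.infinite_compl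
  refine h1 (hfin.subset fun p hp => ⟨hp, ?_⟩)
  by_contra hne
  push Not at hne
  have h3 : ∑ z ∈ (B p).charpoly.roots.toFinset,
      (e.sum fun _ k => k * ((B p).charpoly.rootMultiplicity z : ℤ)) = 0 :=
    Finset.sum_eq_zero fun z _ => hne z
  have h4 : ∀ z, (e.sum fun _ k => k * ((B p).charpoly.rootMultiplicity z : ℤ)) =
      e () * ((B p).charpoly.rootMultiplicity z : ℤ) := by
    intro z
    rw [Finsupp.sum_fintype _ _ (fun _ => zero_mul _)]
    simp
  simp only [h4] at h3
  rw [← Finset.mul_sum, sum_mult (B p) _ fun z hz => Multiset.mem_toFinset.2 hz] at h3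
  rcases mul_eq_zero.1 h3 with h5 | h5
  · exact h0 h5
  · omega

theorem relation_iff (hn : 0 < n) : VirtualRelation S A (fun _ : Unit => B) ↔
    {p : Nat.Primes | (p : ℕ) ∉ S ∧ (A p).charpoly ≠ (B p).charpoly}.Finite := by
  classical
  have h4 : ∀ (e : Unit →₀ ℤ) (p : Nat.Primes) (z : ℂ),
      (e.sum fun _ k => k * ((B p).charpoly.rootMultiplicity z : ℤ)) =
      e () * ((B p).charpoly.rootMultiplicity z : ℤ) := by
    intro e p z
    rw [Finsupp.sum_fintype _ _ (fun _ => zero_mul _)]
    simp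
  constructor
  · rintro ⟨d, hd, e, hfin⟩
    refine hfin.subset ?_
    rintro p ⟨hp, hne⟩
    refine ⟨hp, ?_⟩
    by_contra hall
    push Not at hall
    simp only [h4] at hall
    set Z := (A p).charpoly.roots.toFinset ∪ (B p).charpoly.roots.toFinset with hZ
    have h5 : ∑ z ∈ Z, (d : ℤ) * ((A p).charpoly.rootMultiplicity z : ℤ) =
        ∑ z ∈ Z, e () * ((B p).charpoly.rootMultiplicity z : ℤ) :=
      Finset.sum_congr rfl fun z _ => hall z
    rw [← Finset.mul_sum, ← Finset.mul_sum,
      sum_mult (A p) Z fun z hz => Finset.mem_union_left _ (Multiset.mem_toFinset.2 hz),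
      sum_mult (B p) Z fun z hz => Finset.mem_union_right _ (Multiset.mem_toFinset.2 hz)] at h5
    have hn' : (n : ℤ) ≠ 0 := by exact_mod_cast hn.ne'
    have h6 : (d : ℤ) = e () := mul_right_cancel₀ hn' h5
    apply hne
    refine charpoly_eq_of fun z => ?_
    have h7 := hall z
    rw [← h6] at h7
    have hd' : (d : ℤ) ≠ 0 := by exact_mod_cast hd.ne'
    exact_mod_cast mul_left_cancel₀ hd' h7
  · intro hfin
    refine ⟨1, one_pos, Finsupp.single () 1, hfin.subset ?_⟩
    rintro p ⟨hp, z, hz⟩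
    refine ⟨hp, fun h => hz ?_⟩
    rw [h4, h]
    simp

end

end Pool.Agent.R629.SP
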