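import Pool.Agent.R629.SP.Base
import Pool.Agent.TH345.ET.W
import Mathlib.Data.Finsupp.Encodable

/-!
# Boundary values, their transcendence and their algebraic independence
-/

set_option autoImplicit false

namespace Pool.Agent.R629.SP

open Filter Topology MeasureTheory Finset
open Pool.Agent.TH339.MP (PP FF bl ap tm summable_tm radial_x ae_notMem bl_angle boundary)
open Pool.Agent.TH345.ET (ep bv Cont vals ae_transcendental)
open Pool.Agent.W350.Edge (divSet)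

section combos
variable {J : Type} {b : J → PP → ℂ} {M : J → ℝ}

/-- integral combinations -/
noncomputable def bz (b : J → PP → ℂ) (e : J →₀ ℤ) (x : PP) : ℂ :=
  e.sum fun j k => (k : ℂ) * b j x

lemma bz_bound (hb : ∀ j x, ‖b j x‖ ≤ M j / (x.2 + 1 : ℕ)) (e : J →₀ ℤ) (x : PP) :
    ‖bz b e x‖ ≤ (e.sum fun j k => |(k : ℝ)| * M j) / (x.2 + 1 : ℕ) := by
  unfold bz Finsupp.sum
  rw [sum_div]
  refine norm_sum_le_of_le _ fun j _ => ?_
  rw [norm_mul, Complex.norm_intCast, mul_div_assoc]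
  exact mul_le_mul_of_nonneg_left (hb j x) (abs_nonneg _)

lemma FF_bz (hb : ∀ j x, ‖b j x‖ ≤ M j / (x.2 + 1 : ℕ)) (e : J →₀ ℤ) {s : ℂ} (hs : 1 < s.re) :
    FF (bz b e) s = e.sum fun j k => (k : ℂ) * FF (b j) s := by
  unfold Finsupp.sum
  have h1 := hasSum_sum (s := e.support) fun j _ =>
    ((summable_tm (hb j) hs).hasSum.mul_left ((e j : ℤ) : ℂ))
  have h2 : (fun x => ∑ j ∈ e.support, ((e j : ℤ) : ℂ) * tm (b j) s x) = tm (bz b e) s := by
    funext x
    unfold Pool.Agent.TH339.MP.tm bz Finsupp.sum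
    rw [sum_mul]
    refine sum_congr rfl fun j _ => ?_
    ring
  rw [h2] at h1
  exact h1.tsum_eq

lemma exp_bz (hb : ∀ j x, ‖b j x‖ ≤ M j / (x.2 + 1 : ℕ)) (e : J →₀ ℤ) {s : ℂ} (hs : 1 < s.re) :
    Complex.exp (FF (bz b e) s) = e.prod fun j k => Complex.exp (FF (b j) s) ^ k := by
  rw [FF_bz hb e hs]
  unfold Finsupp.sum Finsupp.prod
  rw [Complex.exp_sum]
  refine prod_congr rfl fun j _ => ?_
  rw [Complex.exp_int_mul]

lemma bl_bz (hb : ∀ j x, ‖b j x‖ ≤ M j / (x.2 + 1 : ℕ)) (e : J →₀ ℤ) {τ : ℝ}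
    (h : ∀ j ∈ e.support, τ ∉ divSet (ap (b j))) (h' : τ ∉ divSet (ap (bz b e))) :
    bl (bz b e) τ = e.sum fun j k => (k : ℂ) * bl (b j) τ := by
  have h1 := radial_x (bz_bound hb e) h'
  have h2 : Tendsto (fun x : ℝ => e.sum fun j k => (k : ℂ) * FF (b j) (1 + τ * Complex.I + x))
      (𝓝[>] 0) (𝓝 (e.sum fun j k => (k : ℂ) * bl (b j) τ)) := by
    unfold Finsupp.sum
    exact tendsto_finsetSum _ fun j hj => (radial_x (hb j) (h j hj)).const_mul _
  refine tendsto_nhds_unique h1 (h2.congr' ?_)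
  filter_upwards [self_mem_nhdsWithin] with x hx
  have hx' : (0 : ℝ) < x := hx
  rw [FF_bz hb e (by simp [hx'])]

lemma exp_bl_bz (hb : ∀ j x, ‖b j x‖ ≤ M j / (x.2 + 1 : ℕ)) (e : J →₀ ℤ) {τ : ℝ}
    (h : ∀ j ∈ e.support, τ ∉ divSet (ap (b j))) (h' : τ ∉ divSet (ap (bz b e))) :
    Complex.exp (bl (bz b e) τ) = e.prod fun j k => Complex.exp (bl (b j) τ) ^ k := by
  rw [bl_bz hb e h h']
  unfold Finsupp.sum Finsupp.prod
  rw [Complex.exp_sum]
  refine prod_congr rfl fun j _ => ?_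
  rw [Complex.exp_int_mul]

end combos

/-- the point `1 + w + iτ` -/
noncomputable def pt (w τ : ℝ) : ℂ := ((1 + w : ℝ) : ℂ) + (τ : ℂ) * Complex.I

/-- an angle at this point -/
def ang (w τ C : ℝ) : Set ℂ := {s : ℂ | 1 + w < s.re ∧ ‖s - pt w τ‖ ≤ C * (s.re - (1 + w))}

lemma pt_sub (w τ : ℝ) : pt w τ - (w : ℂ) = 1 + τ * Complex.I := by
  unfold pt
  push_cast
  ring

theorem bdry {m : ℕ} {S : Finset ℕ} {M : Nat.Primes → Matrix (Fin m) (Fin m) ℂ} {w : ℝ}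
    (h : Bd S M w) {τ : ℝ} (hτ : τ ∉ divSet (ap (bQ (par S M w)))) (C : ℝ) :
    Tendsto (LM S M) (𝓝[ang w τ C] (pt w τ))
      (𝓝 (Complex.exp (bl (bQ (par S M w)) τ))) := by
  have h5 := (Complex.continuous_exp.tendsto _).comp
    (bl_angle (norm_bQ (norm_par h)) hτ C)
  have hre0 : (pt w τ).re = 1 + w := by
    unfold pt
    simp
  have h6 : Tendsto (fun s : ℂ => s - pt w τ) (𝓝[ang w τ C] (pt w τ))
      (𝓝[{z : ℂ | 0 < z.re ∧ ‖z‖ ≤ C * z.re}] 0) := by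
    rw [tendsto_nhdsWithin_iff]
    constructor
    · have h7 : Tendsto (fun s : ℂ => s - pt w τ) (𝓝 (pt w τ)) (𝓝 (pt w τ - pt w τ)) :=
        (continuous_id.sub continuous_const).tendsto _
      rw [sub_self] at h7
      exact h7.mono_left nhdsWithin_le_nhds
    · filter_upwards [self_mem_nhdsWithin] with s hs
      have hre : (s - pt w τ).re = s.re - (1 + w) := by
        rw [Complex.sub_re, hre0]
      refine ⟨?_, ?_⟩
      · rw [hre]
        linarith [hs.1]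
      · rw [hre]
        exact hs.2
  refine (h5.comp h6).congr' ?_
  filter_upwards [self_mem_nhdsWithin] with s hs
  simp only [Function.comp_apply]
  have h1 : 1 < (s - w : ℂ).re := by
    rw [Complex.sub_re, Complex.ofReal_re]
    linarith [hs.1]
  have h2 := LM_eq h h1
  rw [sub_add_cancel] at h2
  rw [h2]
  congr 2
  rw [← pt_sub w τ]
  ring

theorem mainA {J : Type} [Countable J] {m : J → ℕ} (S : Finset ℕ)
    (M : ∀ j, Nat.Primes → Matrix (Fin (m j)) (Fin (m j)) ℂ) (w : J → ℝ)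
    (h : ∀ j, Bd S (M j) (w j)) :
    ∃ l : J → ℝ → ℂ,
      (∃ Z : Set ℝ, dimH Z = 0 ∧ ∀ τ : ℝ, τ ∉ Z → ∀ j, l j τ ≠ 0 ∧ ∀ C : ℝ,
        Tendsto (LM S (M j)) (𝓝[ang (w j) τ C] (pt (w j) τ)) (𝓝 (l j τ))) ∧
      ∀ A : Set (ℂ → ℂ), A.Countable → ∀ᵐ τ : ℝ, ∀ e : J →₀ ℤ,
        (∃ φ : ℂ → ℂ, AnalyticAt ℂ φ (ep τ) ∧ ∀ᶠ s in 𝓝 (ep τ), 1 < s.re →
          (e.prod fun j k => LM S (M j) (s + w j) ^ k) = φ s) ∨
        Transcendental (IntermediateField.adjoin ℚ (vals A (ep τ)))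
          (e.prod fun j k => l j τ ^ k) := by
  classical
  set b : J → PP → ℂ := fun j => bQ (par S (M j) (w j)) with hb0
  have hb : ∀ j x, ‖b j x‖ ≤ (m j : ℝ) / (x.2 + 1 : ℕ) := fun j => norm_bQ (norm_par (h j))
  refine ⟨fun j τ => Complex.exp (bl (b j) τ), ⟨⋃ j, divSet (ap (b j)), ?_, fun τ hτ j =>
    ⟨Complex.exp_ne_zero _, fun C => ?_⟩⟩, fun A hA => ?_⟩
  · rw [dimH_iUnion]
    simp only [(boundary (hb _)).2.1, ENNReal.iSup_zero]
  · rw [Set.mem_iUnion, not_exists] at hτ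
    exact bdry (h j) (hτ j) C
  · rw [ae_all_iff]
    intro e
    have h1 := ae_transcendental (h := fun _ => 1) (bz_bound hb e) (fun _ => analyticAt_const) hA
    have h2 : ∀ᵐ τ : ℝ, ∀ j, τ ∉ divSet (ap (b j)) := ae_all_iff.2 fun j => ae_notMem (hb j)
    filter_upwards [h1, h2, ae_notMem (bz_bound hb e)] with τ hτ1 hτ2 hτ3
    rcases hτ1 with hτ1 | hτ1
    · left
      obtain ⟨φ, hφ, hev⟩ := hτ1
      refine ⟨φ, hφ, ?_⟩
      filter_upwards [hev] with s hs hs1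
      rw [← hs hs1, one_mul, exp_bz hb e hs1]
      unfold Finsupp.prod
      refine prod_congr rfl fun j _ => ?_
      simp only [hb0]
      rw [LM_eq (h j) hs1]
    · right
      unfold Pool.Agent.TH345.ET.bv at hτ1
      rw [one_mul, exp_bl_bz hb e (fun j _ => hτ2 j) hτ3] at hτ1
      exact hτ1

/-- The numbers `τ` and `p^{-iτ}`, `p` prime. -/
noncomputable def powers (τ : ℝ) : Option Nat.Primes → ℂ
  | none => (τ : ℂ)
  | some p => ((p : ℕ) : ℂ) ^ (-((τ : ℂ) * Complex.I))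

lemma xs_eq (τ : ℝ) : Pool.Agent.R409.EV.xs (ep τ) = powers τ := by
  funext o
  unfold Pool.Agent.R409.EV.xs powers Pool.Agent.TH345.ET.ep
  rcases o with _ | p
  · simp only [Option.elim]
    have := Complex.I_mul_I
    linear_combination (-(τ : ℂ)) * this
  · simp only [Option.elim]
    congr 1
    ring

theorem mainB {J : Type} [Countable J] {m : J → ℕ} (S : Finset ℕ)
    (M : ∀ j, Nat.Primes → Matrix (Fin (m j)) (Fin (m j)) ℂ) (w : J → ℝ)
    (h : ∀ j, Bd S (M j) (w j))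
    (hind : ∀ e : J →₀ ℤ, e ≠ 0 → {p : Nat.Primes | (p : ℕ) ∉ S ∧
      (e.sum fun j k => (k : ℂ) * ((M j p).trace * ((p : ℕ) : ℂ) ^ (-(w j : ℂ)))) ≠ 0}.Infinite) :
    ∃ l : J → ℝ → ℂ,
      (∃ Z : Set ℝ, dimH Z = 0 ∧ ∀ τ : ℝ, τ ∉ Z → ∀ j, ∀ C : ℝ,
        Tendsto (LM S (M j)) (𝓝[ang (w j) τ C] (pt (w j) τ)) (𝓝 (l j τ))) ∧
      ∀ k : Subfield ℂ, (k : Set ℂ).Countable → ∀ᵐ τ : ℝ,
        AlgebraicIndependent k (Sum.elim (fun j => l j τ) (powers τ)) := by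
  classical
  set b : J → PP → ℂ := fun j => bQ (par S (M j) (w j)) with hb0
  have hb : ∀ j x, ‖b j x‖ ≤ (m j : ℝ) / (x.2 + 1 : ℕ) := fun j => norm_bQ (norm_par (h j))
  refine ⟨fun j τ => Complex.exp (bl (b j) τ), ⟨⋃ j, divSet (ap (b j)), ?_, fun τ hτ j C => ?_⟩,
    fun k hk => ?_⟩
  · rw [dimH_iUnion]
    simp only [(boundary (hb _)).2.1, ENNReal.iSup_zero]
  · rw [Set.mem_iUnion, not_exists] at hτ
    exact bdry (h j) (hτ j) C
  · have h1 := Pool.Agent.R409.EV.alg_ind hb (fun e he => ?_) (D := fun _ => 1)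
      (fun _ => one_ne_zero) k hk
    · filter_upwards [h1] with τ hτ
      rw [xs_eq] at hτ
      have h2 : Pool.Agent.R409.EV.bval b (fun _ => 1) τ = fun j => Complex.exp (bl (b j) τ) := by
        funext j
        unfold Pool.Agent.R409.EV.bval
        simp
      rwa [h2] at hτ
    · refine (hind e he).mono ?_
      rintro p ⟨hp, hne⟩
      refine ⟨0, ?_⟩
      convert hne using 1
      unfold Finsupp.sum
      refine Finset.sum_congr rfl fun j _ => ?_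
      simp only [hb0]
      unfold bQ par
      simp only [if_neg hp, zero_add, pow_one, Nat.cast_one, div_one]
      rw [← Finset.sum_mul, ← trace_eig]

end Pool.Agent.R629.SP
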