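import Pool.Agent.R629.SP.Edge

/-!
# Relations between Euler products and the boundary values
-/

set_option autoImplicit false

namespace Pool.Agent.R629.SP

open Filter Topology MeasureTheory Finset
open Pool.Agent.TH339.MP (PP FF bl ap tm summable_tm radial_x ae_notMem bl_angle boundary)
open Pool.Agent.TH345.ET (ep bv Cont vals ae_transcendental)
open Pool.Agent.W350.Edge (divSet)

lemma pow_indep (Z : Finset ℂ) (h0 : (0 : ℂ) ∉ Z) (c : ℂ → ℂ)
    (h : ∀ k : ℕ, ∑ z ∈ Z, c z * z ^ (k + 1) = 0) : ∀ z ∈ Z, c z = 0 := by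
  classical
  let e : Fin Z.card ≃ Z := Z.equivFin.symm
  have h1 := Matrix.eq_zero_of_forall_pow_sum_mul_pow_eq_zero (R := ℂ) (f := fun i => (e i : ℂ))
    (v := fun i => c (e i) * (e i : ℂ)) (Subtype.val_injective.comp e.injective) (fun i => by
      have h2 := h i
      rw [← Finset.sum_coe_sort, ← e.sum_comp] at h2
      rw [← h2]
      refine Finset.sum_congr rfl fun j _ => ?_
      ring)
  intro z hz
  have h3 := congr_fun h1 (e.symm ⟨z, hz⟩)
  simp only [Equiv.apply_symm_apply, Pi.zero_apply, mul_eq_zero] at h3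
  rcases h3 with h3 | h3
  · exact h3
  · exact absurd (h3 ▸ hz) h0

lemma sum_eig {m : ℕ} (M : Matrix (Fin m) (Fin m) ℂ) (Z : Finset ℂ)
    (hZ : ∀ z, z ∈ M.charpoly.roots → z ∈ Z) (g : ℂ → ℂ) :
    ∑ j, g (eig M j) = ∑ z ∈ Z, (M.charpoly.rootMultiplicity z : ℂ) * g z := by
  classical
  have h1 : ∑ j, g (eig M j) = (M.charpoly.roots.map g).sum := by
    rw [eig_spec, Multiset.map_map]
    rfl
  rw [h1, Finset.sum_multiset_map_count]
  have h2 : M.charpoly.roots.toFinset ⊆ Z := fun z hz => hZ z (Multiset.mem_toFinset.1 hz)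
  rw [← Finset.sum_subset h2]
  · refine Finset.sum_congr rfl fun z _ => ?_
    rw [nsmul_eq_mul, Polynomial.count_roots]
  · intro z _ hz
    rw [Multiset.mem_toFinset] at hz
    rw [← Polynomial.count_roots, Multiset.count_eq_zero_of_notMem hz]
    simp

section
variable {J : Type} {m : J → ℕ} {S : Finset ℕ}
  {M : ∀ j, Nat.Primes → Matrix (Fin (m j)) (Fin (m j)) ℂ} {w : ℝ}

/-- the virtual multiplicity of `z` at `p` -/
noncomputable def vm (M : ∀ j, Nat.Primes → Matrix (Fin (m j)) (Fin (m j)) ℂ) (e : J →₀ ℤ)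
    (p : Nat.Primes) (z : ℂ) : ℤ :=
  e.sum fun j k => k * ((M j p).charpoly.rootMultiplicity z : ℤ)

lemma zpow_w_ne (p : Nat.Primes) (w : ℝ) : ((p : ℕ) : ℂ) ^ (-(w : ℂ)) ≠ 0 := by
  rw [Ne, Complex.cpow_eq_zero_iff]
  exact fun h => p.2.ne_zero (by exact_mod_cast h.1)

lemma not_root_zero {n : ℕ} {A : Matrix (Fin n) (Fin n) ℂ} (hA : A.det ≠ 0) :
    (0 : ℂ) ∉ A.charpoly.roots := by
  intro h
  have h1 := (Polynomial.mem_roots'.1 h).2
  rw [Polynomial.IsRoot, Matrix.eval_charpoly] at h1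
  simp only [map_zero, zero_sub, Matrix.det_neg] at h1
  rcases mul_eq_zero.1 h1 with h2 | h2
  · exact absurd (eq_zero_of_pow_eq_zero h2) (by norm_num)
  · exact hA h2

lemma vm_iff {p : Nat.Primes} (hp : (p : ℕ) ∉ S) (hdet : ∀ j, (M j p).det ≠ 0) (e : J →₀ ℤ) :
    (∀ k : ℕ, (e.sum fun j n => (n : ℂ) * bQ (par S (M j) w) (p, k)) = 0) ↔
      ∀ z, vm M e p z = 0 := by
  classical
  set Z : Finset ℂ := e.support.biUnion fun j => (M j p).charpoly.roots.toFinset with hZ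
  set u : ℂ := ((p : ℕ) : ℂ) ^ (-(w : ℂ)) with hu
  have hu0 : u ≠ 0 := zpow_w_ne p w
  have hZj : ∀ j ∈ e.support, ∀ z, z ∈ (M j p).charpoly.roots → z ∈ Z := fun j hj z hz =>
    Finset.mem_biUnion.2 ⟨j, hj, Multiset.mem_toFinset.2 hz⟩
  have hZ0 : (0 : ℂ) ∉ Z := by
    intro h
    obtain ⟨j, -, hj⟩ := Finset.mem_biUnion.1 h
    exact not_root_zero (hdet j) (Multiset.mem_toFinset.1 hj)
  have h1 : ∀ k : ℕ, (e.sum fun j n => (n : ℂ) * bQ (par S (M j) w) (p, k)) =
      (u ^ (k + 1) / ((k + 1 : ℕ) : ℂ)) * ∑ z ∈ Z, (vm M e p z : ℂ) * z ^ (k + 1) := by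
    intro k
    unfold Finsupp.sum
    have h2 : ∀ j ∈ e.support, (e j : ℂ) * bQ (par S (M j) w) (p, k) =
        (u ^ (k + 1) / ((k + 1 : ℕ) : ℂ)) *
          ∑ z ∈ Z, ((e j : ℂ) * ((M j p).charpoly.rootMultiplicity z : ℂ)) * z ^ (k + 1) := by
      intro j hj
      unfold bQ
      have h3 : ∀ i, par S (M j) w p i ^ (k + 1) = u ^ (k + 1) * eig (M j p) i ^ (k + 1) := by
        intro i
        unfold par
        rw [if_neg hp, mul_pow]
        ring
      simp only [h3]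
      rw [← Finset.mul_sum, sum_eig (M j p) Z (hZj j hj) (fun z => z ^ (k + 1))]
      simp only [Finset.mul_sum, Finset.sum_div]
      refine Finset.sum_congr rfl fun z _ => ?_
      ring
    rw [Finset.sum_congr rfl h2, ← Finset.mul_sum, Finset.sum_comm]
    congr 1
    refine Finset.sum_congr rfl fun z _ => ?_
    rw [← Finset.sum_mul]
    congr 1
    unfold vm Finsupp.sum
    push_cast
    rfl
  constructor
  · intro h z
    by_cases hz : z ∈ Z
    · have h2 := pow_indep Z hZ0 (fun z => (vm M e p z : ℂ)) (fun k => by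
        have h3 := h k
        rw [h1] at h3
        rcases mul_eq_zero.1 h3 with h4 | h4
        · exfalso
          rw [div_eq_zero_iff] at h4
          rcases h4 with h4 | h4
          · exact hu0 (eq_zero_of_pow_eq_zero h4)
          · exact Nat.cast_ne_zero.2 (Nat.succ_ne_zero k) h4
        · exact h4) z hz
      exact_mod_cast h2
    · unfold vm Finsupp.sum
      refine Finset.sum_eq_zero fun j hj => ?_
      have h2 : z ∉ (M j p).charpoly.roots := fun h => hz (hZj j hj z h)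
      change e j * (((M j p).charpoly.rootMultiplicity z : ℕ) : ℤ) = 0
      rw [← Polynomial.count_roots, Multiset.count_eq_zero_of_notMem h2]
      simp
  · intro h k
    rw [h1]
    simp [h]

/-- the Euler factor, in terms of the normalised parameters -/
noncomputable def fac {n : ℕ} (β : Nat.Primes → Fin n → ℂ) (p : Nat.Primes) (s : ℂ) : ℂ :=
  ∏ i, (1 - β p i * ((p : ℕ) : ℂ) ^ (-s))⁻¹

lemma local_sum {n : ℕ} {β : Nat.Primes → Fin n → ℂ} (hβ : ∀ p j, ‖β p j‖ ≤ 1) {s : ℂ}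
    (hs : 1 < s.re) (p : Nat.Primes) : ∃ g : ℂ, HasSum (fun k : ℕ => tm (bQ β) s (p, k)) g ∧
      Complex.exp g = fac β p s := by
  refine ⟨∑ j, -Complex.log (1 - β p j * ((p : ℕ) : ℂ) ^ (-s)), ?_, ?_⟩
  · have h3 : ∀ j : Fin n, HasSum (fun k : ℕ =>
        (β p j * ((p : ℕ) : ℂ) ^ (-s)) ^ (k + 1) / ((k + 1 : ℕ) : ℂ))
        (-Complex.log (1 - β p j * ((p : ℕ) : ℂ) ^ (-s))) := by
      intro j
      have h4 := Complex.hasSum_taylorSeries_neg_log (norm_par_lt hβ hs p j)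
      have h5 := (hasSum_nat_add_iff' 1).2 h4
      simpa using h5
    have h6 := hasSum_sum (s := univ) fun j _ => h3 j
    convert h6 using 1
    funext k
    unfold Pool.Agent.TH339.MP.tm bQ
    simp only
    rw [div_mul_eq_mul_div, Finset.sum_mul, Finset.sum_div]
    refine Finset.sum_congr rfl fun j _ => ?_
    rw [mul_pow]
  · unfold fac
    rw [Complex.exp_sum]
    refine Finset.prod_congr rfl fun j _ => ?_
    rw [Complex.exp_neg, Complex.exp_log (one_sub_ne (norm_par_lt hβ hs p j))]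

theorem exp_FF_finite {β : ∀ j, Nat.Primes → Fin (m j) → ℂ} (hβ : ∀ j p i, ‖β j p i‖ ≤ 1)
    (e : J →₀ ℤ) (F : Finset Nat.Primes)
    (hF : ∀ p, p ∉ F → ∀ k : ℕ, (e.sum fun j n => (n : ℂ) * bQ (β j) (p, k)) = 0) {s : ℂ}
    (hs : 1 < s.re) : Complex.exp (FF (bz (fun j => bQ (β j)) e) s) =
      ∏ p ∈ F, e.prod fun j n => fac (β j) p s ^ n := by
  classical
  choose g hg1 hg2 using fun j p => local_sum (hβ j) hs p
  have hb := fun j => norm_bQ (hβ j)
  have h1 : HasSum (tm (bz (fun j => bQ (β j)) e) s) (FF (bz (fun j => bQ (β j)) e) s) :=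
    (summable_tm (bz_bound hb e) hs).hasSum
  have h2 : ∀ p : Nat.Primes, HasSum (fun k : ℕ => tm (bz (fun j => bQ (β j)) e) s (p, k))
      (e.sum fun j n => (n : ℂ) * g j p) := by
    intro p
    have h3 := hasSum_sum (s := e.support) fun j _ => (hg1 j p).mul_left ((e j : ℤ) : ℂ)
    refine HasSum.congr_fun h3 fun k => ?_
    unfold Pool.Agent.TH339.MP.tm bz Finsupp.sum
    rw [Finset.sum_mul]
    refine Finset.sum_congr rfl fun j _ => ?_
    ring
  have h4 := h1.prod_fiberwise h2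
  have h5 : ∀ p, p ∉ F → (e.sum fun j n => (n : ℂ) * g j p) = 0 := by
    intro p hp
    refine (h2 p).unique ?_
    convert hasSum_zero using 1
    funext k
    unfold Pool.Agent.TH339.MP.tm bz
    rw [hF p hp k, zero_mul]
  have h6 := h4.unique (hasSum_sum_of_ne_finset_zero (s := F) fun p hp => h5 p hp)
  rw [h6, Complex.exp_sum]
  refine Finset.prod_congr rfl fun p _ => ?_
  unfold Finsupp.sum Finsupp.prod
  rw [Complex.exp_sum]
  refine Finset.prod_congr rfl fun j _ => ?_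
  rw [Complex.exp_int_mul, hg2]

lemma fac_ne {n : ℕ} {β : Nat.Primes → Fin n → ℂ} (hβ : ∀ p j, ‖β p j‖ ≤ 1) (τ : ℝ)
    (p : Nat.Primes) (j : Fin n) : 1 - β p j * ((p : ℕ) : ℂ) ^ (-(1 + τ * Complex.I)) ≠ 0 := by
  refine one_sub_ne ?_
  rw [norm_mul, Complex.norm_natCast_cpow_of_pos p.2.pos]
  have h1 : (-(1 + (τ : ℂ) * Complex.I)).re = -1 := by simp
  rw [h1]
  have h2 : (1 : ℝ) < ((p : ℕ) : ℝ) := by exact_mod_cast p.2.one_lt
  calc ‖β p j‖ * ((p : ℕ) : ℝ) ^ (-1 : ℝ) ≤ 1 * ((p : ℕ) : ℝ) ^ (-1 : ℝ) :=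
        mul_le_mul_of_nonneg_right (hβ p j) (by positivity)
    _ < 1 := by
        rw [one_mul]
        exact Real.rpow_lt_one_of_one_lt_of_neg h2 (by norm_num)

lemma fac_tendsto {n : ℕ} {β : Nat.Primes → Fin n → ℂ} (hβ : ∀ p j, ‖β p j‖ ≤ 1) (τ : ℝ)
    (p : Nat.Primes) : Tendsto (fun x : ℝ => fac β p (1 + τ * Complex.I + x)) (𝓝[>] 0)
      (𝓝 (fac β p (1 + τ * Complex.I))) := by
  unfold fac
  refine tendsto_finsetProd _ fun j _ => ?_
  refine Tendsto.inv₀ ?_ (fac_ne hβ τ p j)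
  have h1 : Continuous fun x : ℝ => 1 - β p j * ((p : ℕ) : ℂ) ^ (-(1 + τ * Complex.I + (x : ℂ))) := by
    have hp : ((p : ℕ) : ℂ) ≠ 0 := by exact_mod_cast p.2.ne_zero
    have h2 : Continuous fun x : ℝ => -(1 + τ * Complex.I + (x : ℂ)) := by fun_prop
    exact continuous_const.sub (continuous_const.mul (h2.const_cpow (Or.inl hp)))
  have h3 := (h1.tendsto 0).mono_left (nhdsWithin_le_nhds (s := Set.Ioi (0 : ℝ)))
  simpa using h3

lemma fac_ne_zero {n : ℕ} {β : Nat.Primes → Fin n → ℂ} (hβ : ∀ p j, ‖β p j‖ ≤ 1) (τ : ℝ)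
    (p : Nat.Primes) : fac β p (1 + τ * Complex.I) ≠ 0 := by
  unfold fac
  exact Finset.prod_ne_zero_iff.2 fun j _ => inv_ne_zero (fac_ne hβ τ p j)

/-- the relation between the boundary values -/
theorem rel_bl {β : ∀ j, Nat.Primes → Fin (m j) → ℂ} (hβ : ∀ j p i, ‖β j p i‖ ≤ 1)
    (e : J →₀ ℤ) (F : Finset Nat.Primes)
    (hF : ∀ p, p ∉ F → ∀ k : ℕ, (e.sum fun j n => (n : ℂ) * bQ (β j) (p, k)) = 0) {τ : ℝ}
    (hτ : ∀ j ∈ e.support, τ ∉ divSet (ap (bQ (β j)))) :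
    (e.prod fun j n => Complex.exp (bl (bQ (β j)) τ) ^ n) =
      ∏ p ∈ F, e.prod fun j n => fac (β j) p (1 + τ * Complex.I) ^ n := by
  have hb := fun j => norm_bQ (hβ j)
  have h1 : Tendsto (fun x : ℝ => ∏ p ∈ F, e.prod fun j n => fac (β j) p (1 + τ * Complex.I + x) ^ n)
      (𝓝[>] 0) (𝓝 (∏ p ∈ F, e.prod fun j n => fac (β j) p (1 + τ * Complex.I) ^ n)) := by
    refine tendsto_finsetProd _ fun p _ => ?_
    unfold Finsupp.prod
    refine tendsto_finsetProd _ fun j _ => ?_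
    exact (fac_tendsto (hβ j) τ p).zpow₀ _ (Or.inl (fac_ne_zero (hβ j) τ p))
  have h2 : Tendsto (fun x : ℝ => e.prod fun j n =>
      Complex.exp (FF (bQ (β j)) (1 + τ * Complex.I + x)) ^ n) (𝓝[>] 0)
      (𝓝 (e.prod fun j n => Complex.exp (bl (bQ (β j)) τ) ^ n)) := by
    unfold Finsupp.prod
    refine tendsto_finsetProd _ fun j hj => ?_
    refine Tendsto.zpow₀ ?_ _ (Or.inl (Complex.exp_ne_zero _))
    exact (Complex.continuous_exp.tendsto _).comp (radial_x (hb j) (hτ j hj))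
  refine tendsto_nhds_unique h2 (h1.congr' ?_)
  filter_upwards [self_mem_nhdsWithin] with x hx
  have hx' : (0 : ℝ) < x := hx
  have hs : 1 < (1 + τ * Complex.I + (x : ℂ)).re := by simp [hx']
  rw [← exp_FF_finite hβ e F hF hs, exp_bz hb e hs]

end

end Pool.Agent.R629.SP
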