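import Pool.Agent.R629.SP.Edge
import Pool.Agent.R629.SP.Char

/-!
# L-functions attached to conjugacy classes and representations of a group

`G` is any group, in the applications the L-group, for example `GSpin_{2n+1}(ℂ)`, `A_p` is an element
of the Satake conjugacy class of `π_p`, and `σ` is a finite-dimensional complex representation.
-/

set_option autoImplicit false

namespace Pool.Agent.R629.SP

open Representation Module

section
variable {G : Type} [Group G] {V : Type} [AddCommGroup V] [Module ℂ V]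

open Classical in
/-- The partial L-function `L_S(s, A, σ) = ∏_{p ∉ S} det(1 - σ(A_p) p^{-s})⁻¹`. -/
noncomputable def LFun (S : Finset ℕ) (A : Nat.Primes → G) (σ : Representation ℂ G V) (s : ℂ) : ℂ :=
  ∏' p : Nat.Primes,
    if (p : ℕ) ∈ S then 1 else (LinearMap.det (1 - (((p : ℕ) : ℂ) ^ (-s)) • σ (A p)))⁻¹

/-- All eigenvalues of `σ(A_p)`, `p ∉ S`, have absolute value at most `p^w`. -/
def Bounded (S : Finset ℕ) (A : Nat.Primes → G) (σ : Representation ℂ G V) (w : ℝ) : Prop :=
  ∀ p : Nat.Primes, (p : ℕ) ∉ S → ∀ α : ℂ, Module.End.HasEigenvalue (σ (A p)) α →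
    ‖α‖ ≤ ((p : ℕ) : ℝ) ^ w

/-- The point `1 + w + iτ` of the line `Re s = 1 + w`. -/
noncomputable def linePoint (w τ : ℝ) : ℂ := ((1 + w : ℝ) : ℂ) + (τ : ℂ) * Complex.I

/-- The angle `|s - (1 + w + iτ)| ≤ C (Re s - 1 - w)` at the point `1 + w + iτ`, in the half-plane
`Re s > 1 + w`. -/
def angle (w τ C : ℝ) : Set ℂ := {s : ℂ | 1 + w < s.re ∧ ‖s - linePoint w τ‖ ≤ C * (s.re - (1 + w))}

/-- the matrices -/
noncomputable def mat (A : Nat.Primes → G) (σ : Representation ℂ G V) [FiniteDimensional ℂ V]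
    (p : Nat.Primes) : Matrix (Fin (finrank ℂ V)) (Fin (finrank ℂ V)) ℂ :=
  LinearMap.toMatrix (finBasis ℂ V) (finBasis ℂ V) (σ (A p))

variable [FiniteDimensional ℂ V]

lemma LFun_mat (S : Finset ℕ) (A : Nat.Primes → G) (σ : Representation ℂ G V) :
    LFun S A σ = LM S (mat A σ) := by
  funext s
  unfold LFun LM
  congr 1
  funext p
  split_ifs with hp
  · rfl
  · congr 1
    rw [← LinearMap.det_toMatrix (finBasis ℂ V)]
    congr 1
    rw [map_sub, map_smul, LinearMap.toMatrix_one]
    rfl

lemma Bd_mat {S : Finset ℕ} {A : Nat.Primes → G} {σ : Representation ℂ G V} {w : ℝ}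
    (h : Bounded S A σ w) : Bd S (mat A σ) w := by
  intro p hp α hα
  refine h p hp α ?_
  rw [Module.End.hasEigenvalue_iff_isRoot_charpoly]
  unfold mat at hα
  rw [LinearMap.charpoly_toMatrix] at hα
  exact (Polynomial.mem_roots'.1 hα).2

lemma trace_mat (A : Nat.Primes → G) (σ : Representation ℂ G V) (p : Nat.Primes) :
    (mat A σ p).trace = LinearMap.trace ℂ V (σ (A p)) := by
  unfold mat
  rw [← LinearMap.trace_eq_matrix_trace]

end

/-! ### Algebraic representations and density -/

section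
variable {N : ℕ} {G : Subgroup (GL (Fin N) ℂ)} {V : Type} [AddCommGroup V] [Module ℂ V]

/-- The entries of the matrix `g`. -/
def entries (g : G) : Fin N × Fin N → ℂ := fun ij => (g : GL (Fin N) ℂ).val ij.1 ij.2

/-- A polynomial in the entries vanishes at `g`. -/
def VanishesAt (P : MvPolynomial (Fin N × Fin N) ℂ) (g : G) : Prop :=
  MvPolynomial.eval (entries g) P = 0

/-- The conjugacy classes of the `A_p`, `p ∉ S`, are Zariski dense in `G`, also after finitely many
primes are left out: a polynomial in the matrix entries which vanishes on the conjugacy classes of all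
but finitely many of the `A_p` vanishes on `G`. -/
def ZariskiDense (S : Finset ℕ) (A : Nat.Primes → G) : Prop :=
  ∀ (F : Finset ℕ) (P : MvPolynomial (Fin N × Fin N) ℂ),
    (∀ p : Nat.Primes, (p : ℕ) ∉ S → (p : ℕ) ∉ F → ∀ g : G, VanishesAt P (g * A p * g⁻¹)) →
    ∀ g : G, VanishesAt P g

/-- The representation is algebraic: its matrix coefficients are polynomials in the matrix entries
divided by a power of the determinant. -/
def IsAlgebraicRep (σ : Representation ℂ G V) : Prop :=
  ∀ (f : V →ₗ[ℂ] ℂ) (v : V), ∃ (P : MvPolynomial (Fin N × Fin N) ℂ) (d : ℕ), ∀ g : G,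
    f (σ g v) * (g : GL (Fin N) ℂ).val.det ^ d = MvPolynomial.eval (entries g) P

/-- the determinant as a polynomial in the entries -/
noncomputable def detP (N : ℕ) : MvPolynomial (Fin N × Fin N) ℂ :=
  (Matrix.of fun i j => (MvPolynomial.X (i, j) : MvPolynomial (Fin N × Fin N) ℂ)).det

lemma eval_detP (g : G) : MvPolynomial.eval (entries g) (detP N) =
    (g : GL (Fin N) ℂ).val.det := by
  unfold detP
  rw [RingHom.map_det]
  congr 1
  ext i j
  simp [entries]

/-- functions which are polynomials divided by a power of the determinant -/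
def Reg (f : G → ℂ) : Prop :=
  ∃ (P : MvPolynomial (Fin N × Fin N) ℂ) (d : ℕ), ∀ g : G,
    f g * (g : GL (Fin N) ℂ).val.det ^ d = MvPolynomial.eval (entries g) P

lemma Reg.add {f f' : G → ℂ} (h : Reg f) (h' : Reg f') : Reg (fun g => f g + f' g) := by
  obtain ⟨P, d, hP⟩ := h
  obtain ⟨P', d', hP'⟩ := h'
  refine ⟨P * detP N ^ d' + P' * detP N ^ d, d + d', fun g => ?_⟩
  rw [map_add, map_mul, map_mul, map_pow, map_pow, ← hP, ← hP', eval_detP]
  ring

lemma Reg.mul_const {f : G → ℂ} (h : Reg f) (c : ℂ) : Reg (fun g => c * f g) := by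
  obtain ⟨P, d, hP⟩ := h
  refine ⟨MvPolynomial.C c * P, d, fun g => ?_⟩
  rw [map_mul, ← hP, MvPolynomial.eval_C]
  ring

lemma Reg.zero : Reg (fun _ : G => (0 : ℂ)) := ⟨0, 0, fun g => by simp⟩

lemma Reg.sum {ι : Type} (s : Finset ι) {f : ι → G → ℂ} (h : ∀ i ∈ s, Reg (f i)) :
    Reg (fun g => ∑ i ∈ s, f i g) := by
  classical
  induction s using Finset.induction_on with
  | empty => simpa using Reg.zero
  | insert a s ha ih =>
    have h1 := (h a (Finset.mem_insert_self a s)).add
      (ih fun i hi => h i (Finset.mem_insert_of_mem hi))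
    simpa [Finset.sum_insert ha] using h1

lemma reg_trace [FiniteDimensional ℂ V] {σ : Representation ℂ G V} (h : IsAlgebraicRep σ) :
    Reg (fun g => LinearMap.trace ℂ V (σ g)) := by
  have h1 : ∀ g, LinearMap.trace ℂ V (σ g) = ∑ i, (finBasis ℂ V).coord i (σ g (finBasis ℂ V i)) := by
    intro g
    rw [LinearMap.trace_eq_matrix_trace ℂ (finBasis ℂ V), Matrix.trace]
    refine Finset.sum_congr rfl fun i _ => ?_
    rw [Matrix.diag_apply, LinearMap.toMatrix_apply]
    rfl
  simp_rw [h1]
  exact Reg.sum _ fun i _ => h _ _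

/-- a regular class function which vanishes at all but finitely many `A_p` vanishes -/
lemma reg_eq_zero {S : Finset ℕ} {A : Nat.Primes → G} (hA : ZariskiDense S A) {f : G → ℂ}
    (hf : Reg f) (hcl : ∀ g x : G, f (g * x * g⁻¹) = f x)
    (h : {p : Nat.Primes | (p : ℕ) ∉ S ∧ f (A p) ≠ 0}.Finite) (g : G) : f g = 0 := by
  classical
  obtain ⟨P, d, hP⟩ := hf
  have h1 := hA (h.toFinset.image fun p : Nat.Primes => (p : ℕ)) P (fun p hp hpF x => by
    unfold VanishesAt
    rw [← hP, hcl]
    have : f (A p) = 0 := by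
      by_contra hne
      exact hpF (Finset.mem_image.2 ⟨p, h.mem_toFinset.2 ⟨hp, hne⟩, rfl⟩)
    rw [this, zero_mul]) g
  unfold VanishesAt at h1
  rw [← hP] at h1
  rcases mul_eq_zero.1 h1 with h2 | h2
  · exact h2
  · exfalso
    have h3 : (g : GL (Fin N) ℂ).val.det ≠ 0 := by
      have := (Matrix.isUnit_iff_isUnit_det _).1 (g : GL (Fin N) ℂ).isUnit
      exact this.ne_zero
    exact h3 (eq_zero_of_pow_eq_zero h2)

end

/-- irreducible algebraic representations which are pairwise not isomorphic have, together,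
no relation between the traces at the `A_p` -/
theorem ind_of_dense {N : ℕ} {G : Subgroup (GL (Fin N) ℂ)} {S : Finset ℕ} {A : Nat.Primes → G}
    (hA : ZariskiDense S A) {J : Type} {V : J → Type} [∀ j, AddCommGroup (V j)]
    [∀ j, Module ℂ (V j)] [∀ j, FiniteDimensional ℂ (V j)] (σ : ∀ j, Representation ℂ G (V j))
    (halg : ∀ j, IsAlgebraicRep (σ j)) (hirr : ∀ j, (σ j).IsIrreducible)
    (hne : ∀ i j, i ≠ j → IsEmpty ((σ i).Equiv (σ j))) (e : J →₀ ℤ) (he : e ≠ 0) :
    {p : Nat.Primes | (p : ℕ) ∉ S ∧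
      (e.sum fun j k => (k : ℂ) * LinearMap.trace ℂ (V j) (σ j (A p))) ≠ 0}.Infinite := by
  classical
  intro hfin
  apply he
  have h1 : Reg (fun g : G => e.sum fun j k => (k : ℂ) * LinearMap.trace ℂ (V j) (σ j g)) := by
    unfold Finsupp.sum
    exact Reg.sum _ fun j _ => (reg_trace (halg j)).mul_const _
  have h2 := reg_eq_zero hA h1 (fun g x => by
    refine Finset.sum_congr rfl fun j _ => ?_
    change (_ : ℂ) * LinearMap.trace ℂ (V j) (σ j (g * x * g⁻¹)) =
      _ * LinearMap.trace ℂ (V j) (σ j x)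
    congr 1
    rw [map_mul (σ j) (g * x) g⁻¹, map_mul (σ j) g x, LinearMap.trace_mul_comm, ← mul_assoc,
      ← map_mul (σ j) g⁻¹ g, inv_mul_cancel, map_one, one_mul]) hfin
  have h3 := char_indep (J := e.support) (fun j => σ j) (fun j => hirr j)
    (fun i j hij => hne i j fun h => hij (Subtype.ext h)) (fun j => (e j : ℂ)) (fun g => by
      have := h2 g
      unfold Finsupp.sum at this
      rw [← Finset.sum_coe_sort] at this
      exact this)
  ext j
  by_cases hj : j ∈ e.support
  · have := h3 ⟨j, hj⟩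
    simpa using this
  · simpa using hj

end Pool.Agent.R629.SP
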