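import Pool.Agent.R629.SP.Crit

/-!
# The criterion, for arbitrary boundary functions
-/

set_option autoImplicit false

namespace Pool.Agent.R629.SP

open Filter Topology MeasureTheory Finset
open Pool.Agent.TH339.MP (PP FF bl ap tm summable_tm radial_x ae_notMem bl_angle boundary)
open Pool.Agent.W350.Edge (divSet)

/-- `l` is the boundary function on the line `Re s = 1 + w` of the Euler product with the matrices
`X p`: outside a set of real numbers `τ` of Hausdorff dimension `0`, the Euler product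
`∏_{p ∉ S} det (1 - X_p p^{-s})⁻¹` tends to `l(τ) ≠ 0` as `s` tends to `1 + w + iτ` in any angle in the
half-plane `Re s > 1 + w`. -/
def IsBoundary {n : ℕ} (S : Finset ℕ) (X : Nat.Primes → Matrix (Fin n) (Fin n) ℂ) (w : ℝ)
    (l : ℝ → ℂ) : Prop :=
  ∃ Z : Set ℝ, dimH Z = 0 ∧ ∀ τ : ℝ, τ ∉ Z → l τ ≠ 0 ∧ ∀ C : ℝ,
    Tendsto (LM S X) (𝓝[ang w τ C] (pt w τ)) (𝓝 (l τ))

lemma null_of_dimH {Z : Set ℝ} (h : dimH Z = 0) : volume Z = 0 := by
  have h1 : dimH Z < ((1 : NNReal) : ENNReal) := by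
    rw [h]
    exact one_pos
  have h2 := hausdorffMeasure_of_dimH_lt h1
  rw [NNReal.coe_one] at h2
  have h3 : (volume : Measure ℝ) = Measure.hausdorffMeasure 1 := hausdorffMeasure_real.symm
  rw [h3]
  exact h2

lemma angle_neBot (w τ : ℝ) : (𝓝[ang w τ 1] (pt w τ)).NeBot := by
  rw [← mem_closure_iff_nhdsWithin_neBot]
  have h1 : Tendsto (fun x : ℝ => pt w τ + (x : ℂ)) (𝓝[>] 0) (𝓝 (pt w τ)) := by
    have h2 : Continuous fun x : ℝ => pt w τ + (x : ℂ) := by fun_prop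
    have h3 := (h2.tendsto 0).mono_left (nhdsWithin_le_nhds (s := Set.Ioi (0 : ℝ)))
    simpa using h3
  refine mem_closure_of_tendsto h1 ?_
  filter_upwards [self_mem_nhdsWithin] with x hx
  have hx' : (0 : ℝ) < x := hx
  have hre : (pt w τ).re = 1 + w := by
    unfold pt
    simp
  refine ⟨?_, ?_⟩
  · rw [Complex.add_re, hre, Complex.ofReal_re]
    linarith
  · rw [add_sub_cancel_left, Complex.add_re, hre, Complex.ofReal_re, Complex.norm_real,
      Real.norm_of_nonneg hx'.le]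
    linarith

lemma isBoundary_bd {n : ℕ} {S : Finset ℕ} {X : Nat.Primes → Matrix (Fin n) (Fin n) ℂ} {w : ℝ}
    (h : Bd S X w) : IsBoundary S X w (bd S X w) :=
  ⟨divSet (ap (bQ (par S X w))), (boundary (norm_bQ (norm_par h))).2.1, fun τ hτ =>
    ⟨bd_ne S X w τ, fun C => bdry h hτ C⟩⟩

lemma boundary_ae {n : ℕ} {S : Finset ℕ} {X : Nat.Primes → Matrix (Fin n) (Fin n) ℂ} {w : ℝ}
    {l l' : ℝ → ℂ} (h : IsBoundary S X w l) (h' : IsBoundary S X w l') :
    ∀ᵐ τ : ℝ, l τ = l' τ := by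
  obtain ⟨Z, hZ, h1⟩ := h
  obtain ⟨Z', hZ', h2⟩ := h'
  filter_upwards [measure_eq_zero_iff_ae_notMem.1 (null_of_dimH hZ),
    measure_eq_zero_iff_ae_notMem.1 (null_of_dimH hZ')] with τ hτ hτ'
  have := angle_neBot w τ
  exact tendsto_nhds_unique ((h1 τ hτ).2 1) ((h2 τ hτ').2 1)

theorem tfae_family {J : Type} [Countable J] {n : ℕ} {m : J → ℕ} {S : Finset ℕ} {w : ℝ}
    {A : Nat.Primes → Matrix (Fin n) (Fin n) ℂ}
    {B : ∀ j, Nat.Primes → Matrix (Fin (m j)) (Fin (m j)) ℂ}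
    (hA : Bd S A w) (hBd : ∀ j, Bd S (B j) w)
    (hdA : ∀ p : Nat.Primes, (p : ℕ) ∉ S → (A p).det ≠ 0)
    (hdB : ∀ j (p : Nat.Primes), (p : ℕ) ∉ S → (B j p).det ≠ 0)
    (hB : Unrelated S B) {l : ℝ → ℂ} (hl : IsBoundary S A w l) {lB : J → ℝ → ℂ}
    (hlB : ∀ j, IsBoundary S (B j) w (lB j)) :
    [VirtualRelation S A B,
      ∃ k : Subfield ℂ, (k : Set ℂ).Countable ∧
        ∀ᵐ τ : ℝ, IsAlgebraic (IntermediateField.adjoin k (valSet (fun j => lB j τ) τ)) (l τ),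
      ∃ k : Subfield ℂ, (k : Set ℂ).Countable ∧
        ¬ ∀ᵐ τ : ℝ, Transcendental (IntermediateField.adjoin k (valSet (fun j => lB j τ) τ))
          (l τ)].TFAE := by
  have e1 : ∀ᵐ τ : ℝ, l τ = bd S A w τ := boundary_ae hl (isBoundary_bd hA)
  have e2 : ∀ᵐ τ : ℝ, (fun j => lB j τ) = fun j => bd S (B j) w τ := by
    have h1 : ∀ᵐ τ : ℝ, ∀ j, lB j τ = bd S (B j) w τ :=
      ae_all_iff.2 fun j => boundary_ae (hlB j) (isBoundary_bd (hBd j))
    filter_upwards [h1] with τ hτ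
    funext j
    exact hτ j
  tfae_have 1 → 2 := by
    intro hR
    obtain ⟨k, hk, h1⟩ := crit_alg hA hBd hdA hdB hR
    refine ⟨k, hk, ?_⟩
    have h2 : ∀ᵐ τ : ℝ, ∀ j, τ ∉ divSet (ap (bQ (par S (B j) w))) :=
      ae_all_iff.2 fun j => ae_notMem (norm_bQ (norm_par (hBd j)))
    filter_upwards [e1, e2, ae_notMem (norm_bQ (norm_par hA)), h2] with τ h3 h4 h5 h6
    rw [h3, h4]
    exact h1 τ h5 h6
  tfae_have 2 → 3 := by
    rintro ⟨k, hk, h1⟩
    refine ⟨k, hk, fun h2 => ?_⟩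
    obtain ⟨τ, h3, h4⟩ := (h1.and h2).exists
    exact h4 h3
  tfae_have 3 → 1 := by
    rintro ⟨k, hk, h1⟩
    by_contra hR
    apply h1
    filter_upwards [e1, e2, crit_transc hA hBd hdA hdB hB hR k hk] with τ h3 h4 h5
    rw [h3, h4]
    exact h5
  tfae_finish

end Pool.Agent.R629.SP
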